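import Pool.Agent.W979.TE.Defs4

set_option autoImplicit false

open Classical

namespace Pool.Agent.W653.TE4

open Pool.Agent.W979.TE Pool.Agent.W979.TE4

/-- the copy of T at level j -/
noncomputable def lay {V : Type} (R : Set V) (t : ℕ) (ht : 0 < t) (j : ℕ) (hj : j < t) (v : V) :
    BV V R t :=
  ⟨(v, if v ∈ R then 0 else j), by
    refine ⟨?_, fun h => ?_⟩
    · dsimp only
      split_ifs
      · exact ht
      · exact hj
    · dsimp only at h ⊢
      rw [if_pos h]⟩

theorem lay_adj {V : Type} (T : SimpleGraph V) (R : Set V) (t : ℕ) (ht : 0 < t) (j : ℕ)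
    (hj : j < t) {u v : V} (h : T.Adj u v) :
    (BU T R t).Adj (lay R t ht j hj u) (lay R t ht j hj v) := by
  rw [BU, SimpleGraph.fromRel_adj]
  refine ⟨?_, Or.inl ⟨h, ?_⟩⟩
  · intro he
    exact h.ne (congrArg (fun a : BV V R t => a.1.1) he)
  · by_cases hu : u ∈ R
    · exact Or.inr (Or.inl hu)
    · by_cases hv : v ∈ R
      · exact Or.inr (Or.inr hv)
      · left
        show (if u ∈ R then 0 else j) = (if v ∈ R then 0 else j)
        rw [if_neg hu, if_neg hv]

theorem sh3 : S_SH3 := by
  intro V T R col hA t ht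
  refine ⟨?_, ?_⟩
  · obtain ⟨r, hr⟩ := hA.ne
    have hreach : ∀ a : BV V R t, (BU T R t).Reachable a (lay R t ht 0 ht r) := by
      rintro ⟨⟨v, j⟩, hj, hv⟩
      have h0 : (⟨(v, j), hj, hv⟩ : BV V R t) = lay R t ht j hj v := by
        apply Subtype.ext
        show (v, j) = (v, if v ∈ R then 0 else j)
        by_cases h : v ∈ R
        · rw [if_pos h, show j = 0 from hv h]
        · rw [if_neg h]
      have h1 : (BU T R t).Reachable (lay R t ht j hj v) (lay R t ht j hj r) := by
        have h2 := hA.conn.preconnected v r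
        clear h0 hv
        clear hr
        rw [SimpleGraph.reachable_iff_reflTransGen] at h2
        induction h2 with
        | refl => exact SimpleGraph.Reachable.refl _
        | tail _ hbc ih => exact ih.trans (lay_adj T R t ht j hj hbc).reachable
      have h2 : lay R t ht j hj r = lay R t ht 0 ht r := by
        apply Subtype.ext
        show (r, if r ∈ R then 0 else j) = (r, if r ∈ R then 0 else 0)
        rw [if_pos hr, if_pos hr]
      rw [h0, ← h2]
      exact h1
    have : Nonempty (BV V R t) := ⟨lay R t ht 0 ht r⟩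
    exact ⟨fun a b => (hreach a).trans (hreach b).symm⟩
  · intro a b h
    rw [BU, SimpleGraph.fromRel_adj] at h
    rcases h.2 with h1 | h1
    · exact hA.prop _ _ h1.1
    · exact (hA.prop _ _ h1.1).symm

end Pool.Agent.W653.TE4
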